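import Pool.Agent.Run7.h943.FP.Stm

/-!
# Piece HALF: from a polynomially small probability to `1/2` (helper594)
-/

set_option autoImplicit false
open MeasureTheory ProbabilityTheory Filter Set
open scoped ENNReal Topology

namespace Run7.h594.FP

open Pool.Agent.N662.FP Run7.h943.FP

theorem asy (C : ℝ) (hC : 1 ≤ C) : ∀ᶠ t : ℝ in atTop,
    2 * Real.log (2 * (C * t ^ 4)) ≤ t ^ (1 / 2 : ℝ) / 16 := by
  have h1 : ∀ᶠ t : ℝ in atTop, Real.log t ≤ 1 / 256 * t ^ (1 / 2 : ℝ) := by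
    have := (isLittleO_log_rpow_atTop (by norm_num : (0 : ℝ) < 1 / 2)).bound
      (by norm_num : (0 : ℝ) < 1 / 256)
    filter_upwards [this, eventually_ge_atTop 1] with t ht h1
    rw [Real.norm_eq_abs, Real.norm_eq_abs, abs_of_nonneg (Real.log_nonneg h1),
      abs_of_nonneg (Real.rpow_nonneg (by linarith) _)] at ht
    exact ht
  have h2 : ∀ᶠ t : ℝ in atTop, 64 * Real.log (2 * C) ≤ t ^ (1 / 2 : ℝ) :=
    (tendsto_rpow_atTop (by norm_num : (0 : ℝ) < 1 / 2)).eventually_ge_atTop _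
  filter_upwards [h1, h2, eventually_ge_atTop 1] with t h1 h2 h3
  have h4 : 2 * (C * t ^ 4) = (2 * C) * t ^ 4 := by ring
  rw [h4, Real.log_mul (by positivity) (by positivity), Real.log_pow]
  push_cast
  linarith

theorem t_HALF : S_SPL → S_TWO → S_TRL → S_HALF := by
  intro hS hT hR Ω _ _ X hX μ hG y m hm
  obtain ⟨C, t1, hC, ht1, hspl⟩ := hS Ω X hX μ hG y m hm
  obtain ⟨t2, ht2⟩ := eventually_atTop.1 (asy C hC)
  refine ⟨max t1 t2, ht1.trans (le_max_left _ _), ?_⟩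
  intro n t hn ht hQ
  have htt1 : t1 ≤ t := (le_max_left _ _).trans ht
  have htt2 : t2 ≤ t := (le_max_right _ _).trans ht
  have ht0 : 1 ≤ t := ht1.trans htt1
  obtain ⟨u, hu, hp⟩ := hspl 2 n t (by norm_num) hn htt1 (by exact_mod_cast hQ)
  refine ⟨u, hu, ?_⟩
  have hlog := ht2 t htt2
  push_cast at hp
  set p : ℝ := 1 / (C * t ^ 4) with hpd
  have hp0 : 0 < p := by positivity
  have hCt : 1 ≤ C * t ^ 4 := by
    have : 1 ≤ t ^ 4 := one_le_pow₀ ht0
    nlinarith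
  have hl0 : 0 ≤ 2 * Real.log (2 * (C * t ^ 4)) := by
    have : 0 ≤ Real.log (2 * (C * t ^ 4)) := Real.log_nonneg (by linarith)
    linarith
  set δ : ℝ := √(2 * Real.log (2 * (C * t ^ 4))) with hδ
  have hδ0 : 0 ≤ δ := Real.sqrt_nonneg _
  have hδ2 : δ ^ 2 = 2 * Real.log (2 * (C * t ^ 4)) := Real.sq_sqrt hl0
  set b : ℝ := √(t / 2) with hb
  have hb0 : 0 ≤ b := Real.sqrt_nonneg _
  have hb2 : b ^ 2 = t / 2 := Real.sq_sqrt (by linarith)
  have h1 := hT Ω X hX u (b + δ) b hb0 (by linarith)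
  have e1 : b + δ - b = δ := by ring
  rw [e1, hb2, hδ2] at h1
  have e2 : Real.exp (-(2 * Real.log (2 * (C * t ^ 4)) / 2)) = p / 2 := by
    have : -(2 * Real.log (2 * (C * t ^ 4)) / 2) = - Real.log (2 * (C * t ^ 4)) := by ring
    rw [this, Real.exp_neg, Real.exp_log (by positivity), hpd]
    field_simp
  rw [e2] at h1
  have h2 : p ≤ (volume : Measure Ω).real {ω | D (env X ω) 0 u ≤ t / 2} :=
    hp.trans (measureReal_mono (fun ω (h : D (env X ω) 0 u < t / 2) => h.le) (measure_ne_top _ _))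
  have h3 : (volume : Measure Ω).real {ω | (b + δ) ^ 2 ≤ D (env X ω) 0 u} ≤ 1 / 2 := by
    have h4 : (0 : ℝ) ≤ (volume : Measure Ω).real {ω | (b + δ) ^ 2 ≤ D (env X ω) 0 u} :=
      measureReal_nonneg
    have h5 := mul_le_mul_of_nonneg_left h2 h4
    have h6 : (volume : Measure Ω).real {ω | (b + δ) ^ 2 ≤ D (env X ω) 0 u} * p ≤ p / 2 :=
      h5.trans h1
    by_contra hcon
    push Not at hcon
    have := mul_lt_mul_of_pos_right hcon hp0
    linarith
  have h4 := (hR Ω X hX 0 u ((b + δ) ^ 2)).2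
  have h5 : 1 / 2 ≤ (volume : Measure Ω).real {ω | D (env X ω) 0 u < (b + δ) ^ 2} := by
    rw [h4]
    linarith
  refine h5.trans (measureReal_mono (fun ω (h : D (env X ω) 0 u < (b + δ) ^ 2) => ?_)
    (measure_ne_top _ _))
  show D (env X ω) 0 u < t / 2 + t ^ (3 / 4 : ℝ)
  refine h.trans_le ?_
  -- the real algebra
  set q : ℝ := t ^ (1 / 4 : ℝ) with hq
  have hq0 : 0 ≤ q := Real.rpow_nonneg (by linarith) _
  have hq1 : 1 ≤ q := Real.one_le_rpow ht0 (by norm_num)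
  have hq2 : t ^ (1 / 2 : ℝ) = q ^ 2 := by
    rw [hq, ← Real.rpow_natCast, ← Real.rpow_mul (by linarith)]
    norm_num
  have hq3 : t ^ (3 / 4 : ℝ) = q ^ 3 := by
    rw [hq, ← Real.rpow_natCast, ← Real.rpow_mul (by linarith)]
    norm_num
  have hq4 : t = q ^ 4 := by
    rw [hq, ← Real.rpow_natCast, ← Real.rpow_mul (by linarith)]
    norm_num
  rw [hq2] at hlog
  have hδq : δ ≤ q / 4 := by
    refine abs_le_of_sq_le_sq' ?_ (by positivity) |>.2
    rw [hδ2]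
    nlinarith
  have hbq : b ≤ q ^ 2 := by
    refine abs_le_of_sq_le_sq' ?_ (by positivity) |>.2
    rw [hb2]
    have : (q ^ 2) ^ 2 = t := by rw [hq4]; ring
    rw [this]
    linarith
  rw [hq3]
  have e3 : (b + δ) ^ 2 = t / 2 + 2 * b * δ + δ ^ 2 := by rw [← hb2]; ring
  rw [e3]
  have h6 : b * δ ≤ q ^ 2 * (q / 4) := mul_le_mul hbq hδq hδ0 (by positivity)
  have h7 : δ ^ 2 ≤ (q / 4) ^ 2 := pow_le_pow_left₀ hδ0 hδq 2
  nlinarith [mul_nonneg (sq_nonneg q) (sub_nonneg.2 hq1)]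

end Run7.h594.FP
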