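import Pool.Agent.Run7.h943.FP.Stm

/-!
# Pieces PMU, TRL, LOW: one-point facts (helper594)
-/

set_option autoImplicit false
open MeasureTheory ProbabilityTheory Filter Set
open scoped ENNReal Topology

namespace Run7.h594.FP

open Pool.Agent.N662.FP Run7.h943.FP

theorem t_PMU : S_PMU := by
  intro Ω _ _ T μ hG v
  by_contra hcon
  push Not at hcon
  obtain ⟨d, hd, hed⟩ := ex_d _ hcon
  have h1 : ∀ r : ℝ, 0 < r → ∫ ω, |T ω v - μ (em v)| ∂(volume : Measure Ω) ≤
      2 * (1 + 1 / d) * r := by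
    intro r hr
    refine (hG.one v r d hr hd (le_trans ?_ hed)).2
    refine measureReal_mono (fun ω (h : μ (em v) + r ≤ T ω v) => ?_) (measure_ne_top _ _)
    show μ (em v) ≤ T ω v
    linarith
  have hi : Integrable (fun ω => |T ω v - μ (em v)|) (volume : Measure Ω) :=
    ((hG.int v).sub (integrable_const _)).abs
  have h0 : (0 : ℝ) ≤ ∫ ω, |T ω v - μ (em v)| ∂(volume : Measure Ω) :=
    integral_nonneg fun ω => abs_nonneg _
  have hC : 0 < 2 * (1 + 1 / d) := by positivity
  have h2 : ∫ ω, |T ω v - μ (em v)| ∂(volume : Measure Ω) = 0 := by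
    refine le_antisymm (le_of_forall_pos_le_add fun e he => ?_) h0
    have h3 := h1 (e / (2 * (1 + 1 / d))) (by positivity)
    rw [mul_div_cancel₀ _ hC.ne'] at h3
    linarith
  have h3 := (integral_eq_zero_iff_of_nonneg (fun ω => abs_nonneg _) hi).1 h2
  have h4 : (volume : Measure Ω).real {ω | μ (em v) ≤ T ω v} = 1 := by
    have : (volume : Measure Ω).real {ω | μ (em v) ≤ T ω v} =
        (volume : Measure Ω).real (Set.univ : Set Ω) := by
      refine measureReal_congr ?_
      filter_upwards [h3] with ω hω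
      have h5 : T ω v - μ (em v) = 0 := abs_eq_zero.1 hω
      have h6 : μ (em v) ≤ T ω v := by linarith
      show (μ (em v) ≤ T ω v) = (ω ∈ (Set.univ : Set Ω))
      exact propext ⟨fun _ => Set.mem_univ ω, fun _ => h6⟩
    rw [this, probReal_univ]
  rw [h4] at hcon
  have : Real.exp (-1) < 1 := by
    rw [Real.exp_lt_one_iff]
    norm_num
  linarith

theorem nm {Ω : Type} [MeasureSpace Ω] (X : Sym2 (ℤ × ℤ) → Ω → ℝ) (hX : Iid X) (a v : ℤ × ℤ)
    (s : ℝ) : NullMeasurableSet {ω | s ≤ D (env X ω) a v} (volume : Measure Ω) := by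
  have hm : Measurable fun ω => D (fun e => max (env X ω e) 0) a v :=
    (cME a v).comp (measurable_pi_lambda _ fun e => hX.meas e)
  have h1 : MeasurableSet {ω | s ≤ D (fun e => max (env X ω e) 0) a v} :=
    measurableSet_le measurable_const hm
  refine h1.nullMeasurableSet.congr ?_
  filter_upwards [cAE Ω X hX] with ω hω
  have : (fun e => max (env X ω e) 0) = env X ω := funext fun e => max_eq_left (hω e)
  show (s ≤ D (fun e => max (env X ω e) 0) a v) = (s ≤ D (env X ω) a v)
  rw [this]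

theorem compl {Ω : Type} [MeasureSpace Ω] [IsProbabilityMeasure (volume : Measure Ω)]
    (X : Sym2 (ℤ × ℤ) → Ω → ℝ) (hX : Iid X) (a v : ℤ × ℤ) (s : ℝ) :
    (volume : Measure Ω).real {ω | D (env X ω) a v < s} =
      1 - (volume : Measure Ω).real {ω | s ≤ D (env X ω) a v} := by
  have h1 : {ω | D (env X ω) a v < s} = {ω | s ≤ D (env X ω) a v}ᶜ := by
    ext ω
    show D (env X ω) a v < s ↔ ¬ (s ≤ D (env X ω) a v)
    exact not_le.symm
  rw [h1]
  exact probReal_compl_eq_one_sub₀ (nm X hX a v s)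

theorem t_TRL : S_TRL := by
  intro Ω _ _ X hX a v s
  refine ⟨?_, compl X hX 0 v s⟩
  rw [compl X hX, compl X hX, cTIL Ω X hX a v s]

theorem t_LOW : S_TWO → S_PMU → S_LOW := by
  intro hT hP Ω _ _ X hX μ hG v s h0 hs hsm
  have h1 := hT Ω X hX v (√(μ (em v))) (√(μ (em v) - s)) (Real.sqrt_nonneg _)
    (Real.sqrt_le_sqrt (by linarith))
  rw [Real.sq_sqrt h0.le, Real.sq_sqrt (by linarith : (0 : ℝ) ≤ μ (em v) - s)] at h1
  have h2 := hP Ω _ μ hG v
  have h3 : (volume : Measure Ω).real {ω | D (env X ω) 0 v < μ (em v) - s} ≤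
      (volume : Measure Ω).real {ω | D (env X ω) 0 v ≤ μ (em v) - s} :=
    measureReal_mono (fun ω (h : D (env X ω) 0 v < μ (em v) - s) => h.le) (measure_ne_top _ _)
  have h4 : (0 : ℝ) ≤ (volume : Measure Ω).real {ω | D (env X ω) 0 v < μ (em v) - s} :=
    measureReal_nonneg
  set A := √(μ (em v)) with hA
  set B := √(μ (em v) - s) with hB
  have hA0 : 0 < A := Real.sqrt_pos.2 h0
  have hB0 : 0 ≤ B := Real.sqrt_nonneg _
  have hBA : B ≤ A := Real.sqrt_le_sqrt (by linarith)
  have hA2 : A ^ 2 = μ (em v) := Real.sq_sqrt h0.le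
  have hB2 : B ^ 2 = μ (em v) - s := Real.sq_sqrt (by linarith)
  have h5 : s / (2 * A) ≤ A - B := by
    rw [div_le_iff₀ (by positivity)]
    have : s = (A - B) * (A + B) := by nlinarith
    rw [this]
    exact mul_le_mul_of_nonneg_left (by linarith) (by linarith)
  have h6 : s ^ 2 / (8 * μ (em v)) ≤ (A - B) ^ 2 / 2 := by
    have h7 : (s / (2 * A)) ^ 2 ≤ (A - B) ^ 2 :=
      pow_le_pow_left₀ (by positivity) h5 2
    have h8 : s ^ 2 / (8 * μ (em v)) = (s / (2 * A)) ^ 2 / 2 := by
      rw [← hA2]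
      field_simp
      ring
    rw [h8]
    linarith
  have h7 : Real.exp (-1) * (volume : Measure Ω).real {ω | D (env X ω) 0 v < μ (em v) - s} ≤
      Real.exp (-(s ^ 2 / (8 * μ (em v)))) := by
    have h9 : Real.exp (-((A - B) ^ 2 / 2)) ≤ Real.exp (-(s ^ 2 / (8 * μ (em v)))) :=
      Real.exp_le_exp.2 (by linarith)
    refine le_trans ?_ (h1.trans h9)
    exact mul_le_mul h2 h3 h4 measureReal_nonneg
  have h8 : Real.exp (1 - s ^ 2 / (8 * μ (em v))) =
      Real.exp 1 * Real.exp (-(s ^ 2 / (8 * μ (em v)))) := by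
    rw [← Real.exp_add]
    congr 1
  rw [h8]
  have h9 : Real.exp 1 * Real.exp (-1) = 1 := by
    rw [← Real.exp_add]
    norm_num
  calc (volume : Measure Ω).real {ω | D (env X ω) 0 v < μ (em v) - s}
      = Real.exp 1 * (Real.exp (-1) *
        (volume : Measure Ω).real {ω | D (env X ω) 0 v < μ (em v) - s}) := by
        rw [← mul_assoc, h9, one_mul]
    _ ≤ _ := mul_le_mul_of_nonneg_left h7 (Real.exp_pos _).le

end Run7.h594.FP
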