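import Pool.Agent.Run7.h943.FP.Stm

/-!
# Piece POLY: asymptotics with `M = n ^ 4` (helper594)
-/

set_option autoImplicit false
open MeasureTheory ProbabilityTheory Filter Set
open scoped ENNReal Topology

namespace Run7.h594.FP

open Pool.Agent.N662.FP Run7.h943.FP

theorem t_POLY : S_SPL → S_HALF → S_LIM → S_RT → S_POLY := by
  intro hS hH hL hRT Ω _ _ X hX μ hG hTC y m hm
  obtain ⟨t0, ht0, hhalf⟩ := hH Ω X hX μ hG y m hm
  obtain ⟨C, hC, hQ⟩ := hRT (Q X y) m t0 hm.pos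
    (by
      rintro N t t' htt ⟨Z, hZ, hp⟩
      exact ⟨Z, hZ, hp.trans (measureReal_mono
        (fun ω (h : D (env X ω) 0 Z < t) => lt_of_lt_of_le h htt) (measure_ne_top _ _))⟩)
    hhalf (fun η hη => hL Ω X hX μ hTC y m hm η hη)
  obtain ⟨C', t1, hC', ht1, hspl⟩ := hS Ω X hX μ hG y m hm
  have hm0 := hm.pos
  -- powers
  have hT5 : Tendsto (fun n : ℕ => ((n : ℝ)) ^ 5) atTop atTop :=
    (tendsto_pow_atTop (by norm_num : (5 : ℕ) ≠ 0)).comp tendsto_natCast_atTop_atTop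
  have e1 := hT5.eventually hQ
  have e2 : ∀ᶠ n : ℕ in atTop, t1 / m ≤ ((n : ℝ)) ^ 5 := hT5.eventually_ge_atTop _
  have e3 : ∀ᶠ n : ℕ in atTop, C ≤ (n : ℝ) ^ (1 / 4 : ℝ) :=
    ((tendsto_rpow_atTop (by norm_num : (0 : ℝ) < 1 / 4)).comp
      tendsto_natCast_atTop_atTop).eventually_ge_atTop _
  have e4 : ∀ᶠ n : ℕ in atTop, C' * (m + C) ^ 4 ≤ (n : ℝ) :=
    tendsto_natCast_atTop_atTop.eventually_ge_atTop _
  filter_upwards [e1, e2, e3, e4, eventually_ge_atTop 1] with n h1 h2 h3 h4 h5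
  have hn1 : (1 : ℝ) ≤ n := by exact_mod_cast h5
  have hn0 : (0 : ℝ) < n := by linarith
  set q : ℝ := (n : ℝ) ^ (1 / 4 : ℝ) with hq
  have hq1 : 1 ≤ q := Real.one_le_rpow hn1 (by norm_num)
  have hq0 : 0 < q := by linarith
  have hq4 : (n : ℝ) = q ^ 4 := by
    rw [hq, ← Real.rpow_natCast, ← Real.rpow_mul hn0.le]
    norm_num
  have hq15 : ((n : ℝ) ^ 5) ^ (3 / 4 : ℝ) = q ^ 15 := by
    rw [hq, ← Real.rpow_natCast, ← Real.rpow_natCast, ← Real.rpow_mul hn0.le,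
      ← Real.rpow_mul hn0.le]
    norm_num
  rw [hq15] at h1
  set t : ℝ := m * (n : ℝ) ^ 5 + C * q ^ 15 with ht
  have hCq : 0 ≤ C * q ^ 15 := by positivity
  have htt1 : t1 ≤ t := by
    rw [div_le_iff₀ hm0] at h2
    rw [ht]
    nlinarith
  have hMn : ((n ^ 4 : ℕ) : ℝ) * (n : ℝ) = (n : ℝ) ^ 5 := by push_cast; ring
  obtain ⟨u, hu, hp⟩ := hspl (n ^ 4) n t (Nat.one_le_pow _ _ h5) hn1 htt1
    (by rw [hMn]; exact h1)
  refine ⟨u, hu, ?_⟩
  have hle : t / ((n ^ 4 : ℕ) : ℝ) ≤ m * n + 1 := by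
    push_cast
    rw [div_le_iff₀ (by positivity), ht]
    have h6 : C * q ^ 15 ≤ (n : ℝ) ^ 4 := by
      have : (n : ℝ) ^ 4 = q * q ^ 15 := by rw [hq4]; ring
      rw [this]
      exact mul_le_mul_of_nonneg_right h3 (by positivity)
    nlinarith
  have hpow : (n : ℝ) ^ (-(21 : ℝ)) ≤ 1 / (C' * t ^ 4) := by
    have ht0' : 0 < t := lt_of_lt_of_le (by linarith) htt1
    have h6 : t ≤ (m + C) * (n : ℝ) ^ 5 := by
      have : q ^ 15 ≤ (n : ℝ) ^ 5 := by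
        have e : (n : ℝ) ^ 5 = q ^ 20 := by rw [hq4]; ring
        rw [e]
        exact pow_le_pow_right₀ hq1 (by norm_num)
      rw [ht]
      nlinarith
    have h7 : t ^ 4 ≤ ((m + C) * (n : ℝ) ^ 5) ^ 4 := pow_le_pow_left₀ ht0'.le h6 4
    have h8 : C' * t ^ 4 ≤ (n : ℝ) ^ 21 := by
      calc C' * t ^ 4 ≤ C' * ((m + C) * (n : ℝ) ^ 5) ^ 4 :=
            mul_le_mul_of_nonneg_left h7 (by linarith)
        _ = (C' * (m + C) ^ 4) * (n : ℝ) ^ 20 := by ring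
        _ ≤ (n : ℝ) * (n : ℝ) ^ 20 := mul_le_mul_of_nonneg_right h4 (by positivity)
        _ = (n : ℝ) ^ 21 := by ring
    have h9 : (n : ℝ) ^ (-(21 : ℝ)) = 1 / (n : ℝ) ^ 21 := by
      rw [Real.rpow_neg hn0.le, one_div]
      congr 1
      rw [← Real.rpow_natCast]
      norm_num
    rw [h9]
    have hC'0 : 0 < C' * t ^ 4 := by
      have : 0 < C' := by linarith
      positivity
    exact one_div_le_one_div_of_le hC'0 h8
  exact (hpow.trans hp).trans (measureReal_mono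
    (fun ω (h : D (env X ω) 0 u < t / ((n ^ 4 : ℕ) : ℝ)) => lt_of_lt_of_le h hle)
    (measure_ne_top _ _))

end Run7.h594.FP
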