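import Pool.Agent.Run7.h943.FP.Stm

/-!
# Piece TWO: the two-point inequality for the passage time (helper594)
-/

set_option autoImplicit false
open MeasureTheory ProbabilityTheory Filter Set
open scoped ENNReal Topology

namespace Run7.h594.FP

open Pool.Agent.N662.FP Run7.h943.FP
open Pool.Agent.N36.FL (ext ext_cont ext_of_mem)

/-- all self-avoiding paths of length `≤ N` from `0` to `v` have passage time `≥ t` -/
def SW (x : Sym2 (ℤ × ℤ) → ℝ) (v : ℤ × ℤ) (N : ℕ) (t : ℝ) : Prop :=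
  ∀ n ≤ N, ∀ p : ℕ → ℤ × ℤ, p 0 = 0 → p n = v →
    (∀ i < n, |(p (i + 1)).1 - (p i).1| + |(p (i + 1)).2 - (p i).2| = 1) →
    (∀ i ≤ n, ∀ j ≤ n, p i = p j → i = j) →
    t ≤ ∑ i ∈ Finset.range n, x s(p i, p (i + 1))

theorem sw_of_le (x : Sym2 (ℤ × ℤ) → ℝ) (hx : ∀ e, 0 ≤ x e) (v : ℤ × ℤ) (t : ℝ)
    (h : t ≤ D x 0 v) (N : ℕ) : SW x v N t := by
  intro n _ p h0 hn hst _
  exact h.trans (csInf_le (cGE x hx 0 v).2.1 ⟨n, p, h0, hn, hst, rfl⟩)

theorem le_of_sw (x : Sym2 (ℤ × ℤ) → ℝ) (hx : ∀ e, 0 ≤ x e) (v : ℤ × ℤ) (t : ℝ)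
    (h : ∀ N, SW x v N t) : t ≤ D x 0 v := by
  refine le_csInf (cGE x hx 0 v).1 ?_
  intro s hs
  obtain ⟨n, p, h0, hn, hst, hsa, hle⟩ := cSAW x hx 0 v s hs
  exact (h n n le_rfl p h0 hn hst hsa).trans hle

theorem closed_sw (F : Finset (Sym2 (ℤ × ℤ))) (v : ℤ × ℤ) (N : ℕ) (t : ℝ) :
    IsClosed {y : Fin F.card → ℝ | SW (ext F y) v N t} := by
  have e : {y : Fin F.card → ℝ | SW (ext F y) v N t} =
      ⋂ (n : ℕ) (_ : n ≤ N) (p : ℕ → ℤ × ℤ) (_ : p 0 = 0) (_ : p n = v)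
        (_ : ∀ i < n, |(p (i + 1)).1 - (p i).1| + |(p (i + 1)).2 - (p i).2| = 1)
        (_ : ∀ i ≤ n, ∀ j ≤ n, p i = p j → i = j),
        {y : Fin F.card → ℝ | t ≤ ∑ i ∈ Finset.range n, ext F y s(p i, p (i + 1))} := by
    ext y
    simp only [SW, Set.mem_iInter]
    rfl
  rw [e]
  refine isClosed_iInter fun n => isClosed_iInter fun _ => isClosed_iInter fun p =>
    isClosed_iInter fun _ => isClosed_iInter fun _ => isClosed_iInter fun _ =>
    isClosed_iInter fun _ => ?_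
  exact isClosed_le continuous_const (continuous_finsetSum _ fun i _ => ext_cont F _)

theorem ext_symm (F : Finset (Sym2 (ℤ × ℤ))) (y : Fin F.card → ℝ) (k : Fin F.card) :
    ext F y (F.equivFin.symm k : Sym2 (ℤ × ℤ)) = y k := by
  unfold Pool.Agent.N36.FL.ext
  rw [dif_pos (F.equivFin.symm k).2]
  congr 1
  exact Equiv.apply_symm_apply _ _

theorem ext_nonneg (F : Finset (Sym2 (ℤ × ℤ))) (y : Fin F.card → ℝ) (hy : ∀ i, 0 ≤ y i)
    (e : Sym2 (ℤ × ℤ)) : 0 ≤ ext F y e := by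
  unfold Pool.Agent.N36.FL.ext
  split_ifs
  · exact hy _
  · exact le_rfl

/-- reverse triangle inequality -/
theorem rti {ι : Type} (s : Finset ι) (u w : ι → ℝ) (a b : ℝ) (hb : 0 ≤ b) (hab : b ≤ a)
    (hu : a ^ 2 ≤ ∑ i ∈ s, u i ^ 2) (hw : ∑ i ∈ s, w i ^ 2 ≤ b ^ 2) :
    (a - b) ^ 2 ≤ ∑ i ∈ s, (u i - w i) ^ 2 := by
  have h1 := Finset.sum_mul_sq_le_sq_mul_sq s u w
  set S := ∑ i ∈ s, u i ^ 2
  set Z := ∑ i ∈ s, w i ^ 2
  set P := ∑ i ∈ s, u i * w i
  have hS : 0 ≤ S := Finset.sum_nonneg fun i _ => sq_nonneg _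
  have hZ : 0 ≤ Z := Finset.sum_nonneg fun i _ => sq_nonneg _
  have h2 : ∑ i ∈ s, (u i - w i) ^ 2 = S + Z - 2 * P := by
    have : ∀ i ∈ s, (u i - w i) ^ 2 = u i ^ 2 + w i ^ 2 - 2 * (u i * w i) := fun i _ => by ring
    rw [Finset.sum_congr rfl this, Finset.sum_sub_distrib, Finset.sum_add_distrib,
      ← Finset.mul_sum]
  have h3 : P ≤ √S * √Z := by
    rw [← Real.sqrt_mul hS]
    exact Real.le_sqrt_of_sq_le h1
  have h4 : a ≤ √S := Real.le_sqrt_of_sq_le hu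
  have h5 : √Z ≤ b := by
    rw [Real.sqrt_le_left hb]
    exact hw
  have h6 : √S ^ 2 = S := Real.sq_sqrt hS
  have h7 : √Z ^ 2 = Z := Real.sq_sqrt hZ
  rw [h2]
  have h8 : (a - b) ^ 2 ≤ (√S - √Z) ^ 2 := by
    have : a - b ≤ √S - √Z := by linarith
    exact pow_le_pow_left₀ (by linarith) this 2
  nlinarith

/-- the edges of a self-avoiding path are distinct -/
theorem edge_inj (n : ℕ) (p : ℕ → ℤ × ℤ) (h : ∀ i ≤ n, ∀ j ≤ n, p i = p j → i = j)
    (i : ℕ) (hi : i < n) (j : ℕ) (hj : j < n) (he : s(p i, p (i + 1)) = s(p j, p (j + 1))) :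
    i = j := by
  rcases Sym2.eq_iff.1 he with ⟨h1, _⟩ | ⟨h1, h2⟩
  · exact h i hi.le j hj.le h1
  · have e1 := h i hi.le (j + 1) hj h1
    have e2 := h (i + 1) hi j hj.le h2
    omega

theorem key (F : Finset (Sym2 (ℤ × ℤ))) (v : ℤ × ℤ) (N : ℕ)
    (hF : ∀ n ≤ N, ∀ p : ℕ → ℤ × ℤ, p 0 = 0 →
      (∀ i < n, |(p (i + 1)).1 - (p i).1| + |(p (i + 1)).2 - (p i).2| = 1) →
      ∀ i < n, s(p i, p (i + 1)) ∈ F)
    (a b : ℝ) (hb : 0 ≤ b) (hab : b ≤ a) (y z : Fin F.card → ℝ) (hy : ∀ i, 0 ≤ y i)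
    (hz : ∀ i, 0 ≤ z i) (h1 : SW (ext F y) v N (a ^ 2)) (h2 : ¬ SW (ext F z) v N (b ^ 2)) :
    (a - b) ^ 2 ≤ ∑ i, (√(y i) - √(z i)) ^ 2 := by
  classical
  unfold SW at h2
  push Not at h2
  obtain ⟨n, hn, p, hp0, hpn, hst, hsa, hlt⟩ := h2
  have h3 := h1 n hn p hp0 hpn hst hsa
  have h4 : (a - b) ^ 2 ≤ ∑ i ∈ Finset.range n,
      (√(ext F y s(p i, p (i + 1))) - √(ext F z s(p i, p (i + 1)))) ^ 2 := by
    refine rti (Finset.range n) _ _ a b hb hab ?_ ?_
    · refine h3.trans (le_of_eq (Finset.sum_congr rfl fun i _ => ?_))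
      exact (Real.sq_sqrt (ext_nonneg F y hy _)).symm
    · refine le_trans (le_of_eq (Finset.sum_congr rfl fun i _ => ?_)) hlt.le
      exact Real.sq_sqrt (ext_nonneg F z hz _)
  refine h4.trans ?_
  have h5 : ∑ i ∈ Finset.range n,
      (√(ext F y s(p i, p (i + 1))) - √(ext F z s(p i, p (i + 1)))) ^ 2 =
      ∑ e ∈ (Finset.range n).image (fun i => s(p i, p (i + 1))),
        (√(ext F y e) - √(ext F z e)) ^ 2 := by
    rw [Finset.sum_image]
    intro i hi j hj he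
    exact edge_inj n p hsa i (Finset.mem_range.1 hi) j (Finset.mem_range.1 hj) he
  rw [h5]
  have h6 : (Finset.range n).image (fun i => s(p i, p (i + 1))) ⊆ F := by
    intro e he
    obtain ⟨i, hi, rfl⟩ := Finset.mem_image.1 he
    exact hF n hn p hp0 hst i (Finset.mem_range.1 hi)
  refine (Finset.sum_le_sum_of_subset_of_nonneg h6 fun e _ _ => sq_nonneg _).trans ?_
  rw [← Finset.sum_coe_sort F, ← Equiv.sum_comp F.equivFin.symm]
  refine le_of_eq (Finset.sum_congr rfl fun k _ => ?_)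
  rw [ext_symm, ext_symm]

theorem win (hSQ : S_SQ) {Ω : Type} [MeasureSpace Ω] [IsProbabilityMeasure (volume : Measure Ω)]
    (X : Sym2 (ℤ × ℤ) → Ω → ℝ) (hX : Iid X) (v : ℤ × ℤ) (N : ℕ) (a b : ℝ) (hb : 0 ≤ b)
    (hab : b ≤ a) :
    (volume : Measure Ω) {ω | SW (env X ω) v N (a ^ 2)} *
      (volume : Measure Ω) {ω | ¬ SW (env X ω) v N (b ^ 2)} ≤
    ENNReal.ofReal (Real.exp (-((a - b) ^ 2 / 2))) := by
  obtain ⟨F, hF⟩ := Pool.Agent.N887.FL.t_FIN 0 N
  obtain ⟨Y, hY⟩ : ∃ Y : Ω → Fin F.card → ℝ,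
      Y = fun ω i => X (F.equivFin.symm i : Sym2 (ℤ × ℤ)) ω := ⟨_, rfl⟩
  have hYm : Measurable Y := by
    rw [hY]
    exact measurable_pi_lambda _ fun i => hX.meas _
  have hinj : Function.Injective fun i : Fin F.card => (F.equivFin.symm i : Sym2 (ℤ × ℤ)) :=
    Subtype.val_injective.comp F.equivFin.symm.injective
  have hlaw : Measure.map Y (volume : Measure Ω) =
      Measure.pi fun _ : Fin F.card => expMeasure 1 := by
    have hi : iIndepFun (fun i : Fin F.card => X (F.equivFin.symm i : Sym2 (ℤ × ℤ)))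
        (volume : Measure Ω) := hX.ind.precomp hinj
    have h3 := (iIndepFun_iff_map_fun_eq_pi_map
      (fun i : Fin F.card => (hX.meas (F.equivFin.symm i : Sym2 (ℤ × ℤ))).aemeasurable)).1 hi
    rw [hY, h3]
    congr 1
    funext i
    exact hX.law _
  have hset : ∀ (r : ℝ) (ω : Ω), SW (env X ω) v N r ↔ SW (ext F (Y ω)) v N r := by
    intro r ω
    have hs : ∀ n ≤ N, ∀ p : ℕ → ℤ × ℤ, p 0 = 0 →
        (∀ i < n, |(p (i + 1)).1 - (p i).1| + |(p (i + 1)).2 - (p i).2| = 1) →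
        ∑ i ∈ Finset.range n, env X ω s(p i, p (i + 1)) =
          ∑ i ∈ Finset.range n, ext F (Y ω) s(p i, p (i + 1)) := by
      intro n hn p hp hst
      refine Finset.sum_congr rfl fun i hi => ?_
      rw [hY]
      exact (ext_of_mem F (env X ω) _ (hF n hn p hp hst i (Finset.mem_range.1 hi))).symm
    constructor
    · intro h n hn p hp hv hst hsa
      rw [← hs n hn p hp hst]
      exact h n hn p hp hv hst hsa
    · intro h n hn p hp hv hst hsa
      rw [hs n hn p hp hst]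
      exact h n hn p hp hv hst hsa
  have hmA : MeasurableSet {y : Fin F.card → ℝ | SW (ext F y) v N (a ^ 2)} :=
    (closed_sw F v N _).measurableSet
  have hmB : MeasurableSet {y : Fin F.card → ℝ | ¬ SW (ext F y) v N (b ^ 2)} :=
    (closed_sw F v N _).measurableSet.compl
  have eA : (volume : Measure Ω) {ω | SW (env X ω) v N (a ^ 2)} =
      (Measure.pi fun _ : Fin F.card => expMeasure 1)
        {y : Fin F.card → ℝ | SW (ext F y) v N (a ^ 2)} := by
    rw [← hlaw, Measure.map_apply hYm hmA]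
    congr 1
    ext ω
    exact hset _ ω
  have eB : (volume : Measure Ω) {ω | ¬ SW (env X ω) v N (b ^ 2)} =
      (Measure.pi fun _ : Fin F.card => expMeasure 1)
        {y : Fin F.card → ℝ | ¬ SW (ext F y) v N (b ^ 2)} := by
    rw [← hlaw, Measure.map_apply hYm hmB]
    congr 1
    ext ω
    exact not_congr (hset _ ω)
  rw [eA, eB]
  refine hSQ F.card _ _ (a - b) hmA hmB (by linarith) ?_
  intro y hy z hz hy0 hz0
  exact key F v N (fun n hn p h0 hst => hF n hn p h0 hst) a b hb hab y z hy0 hz0 hy hz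

theorem t_TWO : S_SQ → S_TWO := by
  intro hSQ Ω _ _ X hX v a b hb hab
  rcases hab.eq_or_lt with rfl | hlt
  · have h1 : (volume : Measure Ω).real {ω | b ^ 2 ≤ D (env X ω) 0 v} ≤ 1 := measureReal_le_one
    have h2 : (volume : Measure Ω).real {ω | D (env X ω) 0 v ≤ b ^ 2} ≤ 1 := measureReal_le_one
    have h3 : (0 : ℝ) ≤ (volume : Measure Ω).real {ω | D (env X ω) 0 v ≤ b ^ 2} :=
      measureReal_nonneg
    rw [sub_self]
    norm_num
    exact mul_le_one₀ h1 h3 h2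
  have hae := cAE Ω X hX
  have hmain : ∀ b' : ℝ, b < b' → b' ≤ a →
      (volume : Measure Ω).real {ω | a ^ 2 ≤ D (env X ω) 0 v} *
        (volume : Measure Ω).real {ω | D (env X ω) 0 v ≤ b ^ 2} ≤
      Real.exp (-((a - b') ^ 2 / 2)) := by
    intro b' hb1 hb2
    have hA : ∀ N, (volume : Measure Ω) {ω | a ^ 2 ≤ D (env X ω) 0 v} ≤
        (volume : Measure Ω) {ω | SW (env X ω) v N (a ^ 2)} := by
      intro N
      refine measure_mono_ae ?_
      filter_upwards [hae] with ω hω h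
      exact sw_of_le (env X ω) hω v _ h N
    have hB : (volume : Measure Ω) {ω | D (env X ω) 0 v ≤ b ^ 2} ≤
        (volume : Measure Ω) (⋃ N, {ω | ¬ SW (env X ω) v N (b' ^ 2)}) := by
      refine measure_mono_ae ?_
      filter_upwards [hae] with ω hω h
      have h1 : ¬ (b' ^ 2 ≤ D (env X ω) 0 v) := by
        have h2 : D (env X ω) 0 v ≤ b ^ 2 := h
        have h3 : b ^ 2 < b' ^ 2 := pow_lt_pow_left₀ hb1 hb two_ne_zero
        linarith
      have h2 : ¬ ∀ N, SW (env X ω) v N (b' ^ 2) := fun h3 =>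
        h1 (le_of_sw (env X ω) hω v _ h3)
      push Not at h2
      obtain ⟨N, hN⟩ := h2
      exact mem_iUnion.2 ⟨N, hN⟩
    have hmono : Monotone fun N => {ω | ¬ SW (env X ω) v N (b' ^ 2)} := by
      intro N M hNM ω h h2
      exact h fun n hn => h2 n (hn.trans hNM)
    have hE : (volume : Measure Ω) {ω | a ^ 2 ≤ D (env X ω) 0 v} *
        (volume : Measure Ω) {ω | D (env X ω) 0 v ≤ b ^ 2} ≤
        ENNReal.ofReal (Real.exp (-((a - b') ^ 2 / 2))) := by
      refine (mul_le_mul_right hB _).trans ?_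
      rw [hmono.measure_iUnion, ENNReal.mul_iSup]
      refine iSup_le fun N => ?_
      refine (mul_le_mul_left (hA N) _).trans ?_
      exact win hSQ X hX v N a b' (hb.trans hb1.le) hb2
    rw [measureReal_def, measureReal_def, ← ENNReal.toReal_mul]
    exact ENNReal.toReal_le_of_le_ofReal (Real.exp_pos _).le hE
  have hcont : Tendsto (fun b' : ℝ => Real.exp (-((a - b') ^ 2 / 2))) (𝓝[>] b)
      (𝓝 (Real.exp (-((a - b) ^ 2 / 2)))) := by
    have : Continuous fun b' : ℝ => Real.exp (-((a - b') ^ 2 / 2)) := by fun_prop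
    exact this.continuousWithinAt
  refine ge_of_tendsto hcont ?_
  filter_upwards [Ioc_mem_nhdsGT hlt] with b' hb'
  exact hmain b' hb'.1 hb'.2

end Run7.h594.FP
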